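import Pool.Agent.ATT.Defs

/-!
# Attempts (KIL + REL): statements

PLAN. In an attempt the sites of `Q` are revealed one after the other; before `b` is revealed the
running sites of `R` which absorb too much of the current out of `b` are killed, in rounds (block KIL,
helper38). This file controls everything else, CUMULATIVELY (the number of rounds is not small, so
bounds per round do not suffice): the functional `U` (sums of exponentials of the entries of `G - Go`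
and of `mx`, with a budget) is a supermartingale without any drift in the kill runs (`UjtStmt`,
`StkStmt`), and does not change at a reveal, because the reference matrix `Go` jumps with `G`
(`RvsStmt`). `U < 1` gives the good points which KIL needs (`GokStmt`). The number of kills in the phase of one
site `b` is bounded in block KIL (`PhsAt`). Result: `AtaStmt`, `OutStmt`.
-/

set_option autoImplicit false

open MeasureTheory ProbabilityTheory Function Filter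

open scoped ENNReal BigOperators Topology NNReal Matrix

noncomputable section

namespace Pool.Agent.ATT

open Pool.Agent.LE.QF (HJ HM gG LL dC)
open Pool.Agent.KIL (KJ KGd Cut gam aa yn ym cu)
open Pool.Agent.ANP (Cfg gm Att)

/-! ### A. One kill run -/

/-- PEB: bounds from `pe`. Proof: `2 cosh (l x) ≥ exp (l |x|)`, so `pe < 1` gives
`B - l ε + l |re z| < 0`, the same for `im z`, and `‖z‖ ≤ |re z| + |im z|`. -/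
def PebStmt : Prop :=
  ∀ (l B ε : ℝ) (z : ℂ), 0 < l → 0 ≤ pe l B z ∧ (0 ≤ B → pe l (B - l * ε) z < 1 → ‖z‖ ≤ 2 * ε)

/-- CUP: the cut off. Proof: calculus (`Helper70_LQF/UFL.lean`); `1 - (1 - u)³ ≥ u` on `[0, 1]`. -/
def CupStmt : Prop :=
  ContDiff ℝ 2 cu ∧ Monotone cu ∧ (∀ u, 0 ≤ u → 0 ≤ cu u ∧ cu u ≤ 1 ∧ cu u ≤ 3 * u) ∧
    (∀ u, 1 ≤ u → cu u = 1) ∧ ∀ u, 0 ≤ u → u < 1 → u ≤ cu u

/-- PEJ: the jet of `pe`. Proof: `JalStmt` (`Helper77_LQF/JAL.lean`): for `f = cosh (l w)`, `w` the real or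
the imaginary part of `F - z₀`: `LL f = l sinh (l w) LL w + (l² / 2) cosh (l w) |∇ w|²`, `|sinh| ≤ cosh`; the
factor `exp (B - ρ t)` gives `- ρ`. -/
def PejStmt : Prop :=
  ∀ (ι : Type) [Fintype ι] [DecidableEq ι] (q : ℝ × (ι → ℝ)) (F : ℝ × (ι → ℝ) → ℂ) (z z₀ lz : ℂ)
    (g : ι → ℂ) (l B ρ : ℝ), 0 ≤ l → HJ F q z g lz →
      ∃ (g' : ι → ℝ) (l' : ℝ), HJ (fun r => pe l (B - ρ * r.1) (F r - z₀)) q
        (pe l (B - ρ * q.1) (z - z₀)) g' l' ∧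
        l' ≤ pe l (B - ρ * q.1) (z - z₀) * (-ρ + l * ‖lz‖ + l ^ 2 / 2 * ∑ c, ‖g c‖ ^ 2)

/-- MXJ: the jet of `mx`. Proof: `JalStmt`; `κ` is constant on `A₃` (`KJ.hd0`). With `Δ y = G x y - Go x y`:
`∂_c mx = - 2 re ∑ κ y conj (Δ y) G x (e c) G (e c) y`, `LL mx = ∑ κ y (2 re (conj (Δ y)
∑_c G x (e c) μ c G (e c) y) + ∑_c |G x (e c) G (e c) y|²)`. Exchange the sums and use Cauchy-Schwarz in
`ℓ²(A₃, κ)`: `|∑ κ y conj (Δ y) G (e c) y| ≤ (mx gb)^{1/2}`. -/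
def MxjStmt : Prop :=
  ∀ (ι X : Type) [Fintype ι] [DecidableEq ι] [Fintype X] [DecidableEq X] (e : ι → X)
    (q : ℝ × (ι → ℝ)) (Gm : ℝ × (ι → ℝ) → Matrix X X ℂ) (kp : ℝ → X → ℝ) (G Go : Matrix X X ℂ)
    (κ g : X → ℝ) (μ : ι → ℂ) (A₃ : Finset X) (x : X), KJ e q Gm kp G κ g μ → (∀ c, e c ∉ A₃) →
      ∃ (g' : ι → ℝ) (l' : ℝ), HJ (fun r => mx (kp r.1) A₃ (Gm r) Go x) q (mx κ A₃ G Go x) g' l' ∧
        ∀ M gb : ℝ, (∀ y ∈ A₃, 0 ≤ κ y) → mx κ A₃ G Go x ≤ M → 0 ≤ gb →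
          (∀ c, ∑ y ∈ A₃, κ y * ‖G (e c) y‖ ^ 2 ≤ gb) →
          l' ≤ ∑ c, (2 * ‖μ c‖ * ‖G x (e c)‖ * Real.sqrt (M * gb) + ‖G x (e c)‖ ^ 2 * gb) ∧
          ∀ c, g' c ^ 2 ≤ 4 * (‖G x (e c)‖ ^ 2 * (M * gb))

/-- MAJ: the jet of `MM`. Proof: as MXJ. With `Δ = G - Go`, `ρ c = ∑_(x ∈ A₃) κ x |G x (e c)|² ≤ gb`:
`LL MM = 2 re ∑_c μ c ∑_(x y) κ κ conj (Δ x y) G x (e c) G (e c) y + ∑_c (ρ c)²`,
`∂_c MM = - 2 re ∑_(x y) κ κ conj (Δ x y) G x (e c) G (e c) y`; Cauchy-Schwarz: the double sum is at most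
`MM^{1/2} ρ c`. (`G x (e c) = G (e c) x` by `KJ`.) -/
def MajStmt : Prop :=
  ∀ (ι X : Type) [Fintype ι] [DecidableEq ι] [Fintype X] [DecidableEq X] (e : ι → X)
    (q : ℝ × (ι → ℝ)) (Gm : ℝ × (ι → ℝ) → Matrix X X ℂ) (kp : ℝ → X → ℝ) (G Go : Matrix X X ℂ)
    (κ g : X → ℝ) (μ : ι → ℂ) (A₃ : Finset X), KJ e q Gm kp G κ g μ → (∀ c, e c ∉ A₃) →
      ∃ (g' : ι → ℝ) (l' : ℝ), HJ (fun r => MM (kp r.1) A₃ (Gm r) Go) q (MM κ A₃ G Go) g' l' ∧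
        ∀ M gb : ℝ, (∀ y ∈ A₃, 0 ≤ κ y) → MM κ A₃ G Go ≤ M → 0 ≤ gb →
          (∀ c, ∑ y ∈ A₃, κ y * ‖G (e c) y‖ ^ 2 ≤ gb) →
          l' ≤ ∑ c, (2 * ‖μ c‖ * gb * Real.sqrt M + gb ^ 2) ∧
          ∀ c, g' c ^ 2 ≤ 4 * (gb ^ 2 * M)

/-- UJT (uses PEB, PEJ, MXJ, MAJ): THE FUNCTIONAL HAS NO DRIFT. Proof: sums of jets (`JalStmt`). Let `U < 1`:
all terms are `< 1` (they are `≥ 0`), so `‖G x c - Go x c‖ ≤ 2 ε x`, `‖G x c‖ ≤ p x c` for `x ∈ A₁`,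
`c ∈ A₂`, and `mx ≤ εm`. For a pair: `‖LL G x y‖ ≤ ∑_c δ p x (e c) p y (e c)`,
`∑ ‖∂_c G x y‖² ≤ ∑_c (p x (e c) p y (e c))²` (`G (e c) y = G y (e c)`), so the bracket in `PejStmt` is at
most `- ρ x y + ∑_c cs ≤ 0`. For `exp (Bm - ρm t + lm (mx - εm))`: `LL` is at most its value times
`- ρm + lm l' + (lm² / 2) ∑ g' c² ≤ - ρm + ∑_c cm ≤ 0`; the same for the term of `MM` (`cM`). -/
def UjtStmt : Prop :=
  ∀ (ι X : Type) [Fintype ι] [DecidableEq ι] [Fintype X] [DecidableEq X] (e : ι → X)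
    (q : ℝ × (ι → ℝ)) (Gm : ℝ × (ι → ℝ) → Matrix X X ℂ) (kp : ℝ → X → ℝ) (G Go : Matrix X X ℂ)
    (κ g : X → ℝ) (μ : ι → ℂ) (W : Rn X) (δ gb : ℝ), KJ e q Gm kp G κ g μ → 0 ≤ δ → 0 ≤ gb →
    W.A₃ ⊆ W.A₂ → W.A₂ ⊆ W.A₁ → (∀ c, e c ∈ W.A₂ ∧ e c ∉ W.A₃) → (∀ y ∈ W.A₃, 0 ≤ κ y) →
    (∀ x ∈ W.A₁, 0 < W.l x ∧ 0 ≤ W.ε x ∧ ∀ c ∈ W.A₂, ‖Go x c‖ + 2 * W.ε x ≤ W.p x c) →
    0 < W.lm → 0 < W.εm → 0 < W.lM → 0 < W.εM → (∀ x ∈ W.A₁, ∀ y ∈ W.A₂, 0 ≤ W.B x y - W.ρ x y * q.1) →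
    (∀ x ∈ W.A₂, 0 ≤ W.Bm x - W.ρm x * q.1) → 0 ≤ W.BM - W.ρM * q.1 →
    (∀ x ∈ W.A₁, ∀ y ∈ W.A₂, ∑ c, cs (W.l x) δ (W.p x (e c)) (W.p y (e c)) ≤ W.ρ x y) →
    (∀ x ∈ W.A₂, ∑ c, cm W.lm W.εm δ gb (W.p x (e c)) ≤ W.ρm x) →
    (Fintype.card ι : ℝ) * cM W.lM W.εM δ gb ≤ W.ρM →
    (W.U κ Go q.1 G < 1 → ∀ c, ‖μ c‖ ≤ δ ∧ ∑ y ∈ W.A₃, κ y * ‖G (e c) y‖ ^ 2 ≤ gb) →
      0 ≤ W.U κ Go q.1 G ∧
      ContDiffAt ℝ 2 (fun r : ℝ × (ι → ℝ) => W.U (kp r.1) Go r.1 (Gm r)) q ∧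
      (W.U κ Go q.1 G < 1 → LL (fun r : ℝ × (ι → ℝ) => W.U (kp r.1) Go r.1 (Gm r)) q ≤ 0) ∧
      (W.U κ Go q.1 G < 1 → (∀ x ∈ W.A₁, ∀ y ∈ W.A₂, ‖G x y - Go x y‖ ≤ 2 * W.ε x) ∧
        (∀ x ∈ W.A₂, mx κ W.A₃ G Go x ≤ W.εm) ∧ MM κ W.A₃ G Go ≤ W.εM)

/-- GUF: the functional in a run. Proof: `FlwStmt` (`Helper2_LQF/FLW.lean`) for `F = cu ∘ u`, `a = b = 0`, as in
`Helper70_LQF/UFL.lean`: `cu` is concave on `[0, ∞)`, `LL F = cu' LL u + (1/2) cu'' |∇ u|² ≤ 0` where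
`u < 1`, `LL F = 0` at the points with `u ≥ 1` (there `cu' = cu'' = 0`, or `F = 1` near the point). -/
def GufStmt : Prop :=
  ∀ (ι : Type) [Fintype ι] [DecidableEq ι] (T : ℝ) (u : ℝ × (ι → ℝ) → ℝ), 0 < T →
    (∀ q : ℝ × (ι → ℝ), 0 ≤ q.1 → q.1 ≤ T → 0 ≤ u q ∧ ContDiffAt ℝ 2 u q ∧ (u q < 1 → LL u q ≤ 0)) →
      ∫ V, cu (u (T, V)) ∂(Measure.pi fun _ : ι => gaussianReal 0 T.toNNReal) ≤ cu (u (0, 0))

/-! ### B. The networks -/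

/-- RUN: a kill run. Proof: `Gk r` is the inverse of the matrix `A r` = `Hm + diag (…) - i diag (…)`, which
is affine in `r`: the entry at `c ∈ D` is `V c + r.2 c - (v - r.1) m̃ c - i e0` with `m̃ = mg`, so
`∂_c A = E_c`, `∂_t A = ∑_(c ∈ D) m̃ c E_c`. The absorption is positive for `0 ≤ r.1 ≤ v`, so `A r` is
invertible (`GEQ` of the tank ANR, or `WK` of AWD) and its inverse has jets (`JmaStmt`,
`Helper77_LQF/JMA.lean`, or the proof of RSJ): `∂_c G = - G E_c G`,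
`LL G = ∑_c (G c c - m̃ c) G E_c G`. Ward: `GEQ`. The end points: `v - r.1 = 0`. -/
def RunStmt : Prop :=
  ∀ (X : Type) [Fintype X] [DecidableEq X] (Hm : Matrix X X ℝ) (η e0 : ℝ) (v : ℝ≥0) (T : Cfg X)
    (D : Finset X), (∀ x y, Hm x y = Hm y x) → 0 < e0 → e0 ≤ η → 0 < v →
    (∀ x, 0 < T.s x → 0 < (T.mb x).im) → (∀ c ∈ D, T.s c = v) →
    (∀ r : ℝ × (D → ℝ), 0 ≤ r.1 → r.1 ≤ v →
      KJ (fun c : D => (c : X)) r (Gk Hm η e0 v T D) (kr η e0 v T D) (Gk Hm η e0 v T D r)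
        (kr η e0 v T D r.1) (fun x => (mg η e0 v T x).im)
        (fun c => Gk Hm η e0 v T D r c c - mg η e0 v T c) ∧
      (∀ x, 0 < kr η e0 v T D r.1 x) ∧
      ∀ a b, ∑ y, (kr η e0 v T D r.1 y : ℂ) * (Gk Hm η e0 v T D r a y *
        (starRingEnd ℂ) (Gk Hm η e0 v T D r b y)) = ((Gk Hm η e0 v T D r a b).im : ℂ)) ∧
    Gk Hm η e0 v T D 0 = GT Hm η e0 T ∧ kr η e0 v T D 0 = ka η e0 T ∧
    (∀ ζ : X → ℝ, Gk Hm η e0 v T D (v, fun c => ζ c) = GT Hm η e0 (T.kl D ζ) ∧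
      kr η e0 v T D v = ka η e0 (T.kl D ζ)) ∧
    ∀ a b, Measurable fun ζ : X → ℝ => GT Hm η e0 (T.kl D ζ) a b

/-- NET: the network of a configuration. Proof: `ANR.Net` holds, then `GEQ` (symmetry, Ward). -/
def NetStmt : Prop :=
  ∀ (X : Type) [Fintype X] [DecidableEq X] (Hm : Matrix X X ℝ) (η e0 : ℝ) (T : Cfg X),
    (∀ x y, Hm x y = Hm y x) → 0 < e0 → e0 ≤ η → (∀ x, 0 < T.s x → 0 < (T.mb x).im) →
      ANR.Net (hN Hm T) (ka η e0 T) ∧ (∀ x y, GT Hm η e0 T x y = GT Hm η e0 T y x) ∧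
      (∀ y, ∑ z, ka η e0 T z * ‖GT Hm η e0 T z y‖ ^ 2 = (GT Hm η e0 T y y).im) ∧
      ∀ b, (∀ v, v ≠ b → hN Hm T v b = 0) ∨ 0 < gam (ka η e0 T) (GT Hm η e0 T) b

/-- MSR: the noise of a kill run. Proof: `gm 0 (kv D)` is a product measure; the image under the
restriction to `D` is the product of the factors of `D` (`MeasureTheory.Measure.pi` and
`Measure.map`, `measurePreserving_piEquivPiSubtypeProd` or `Measure.pi_map_restrict`). -/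
def MsrStmt : Prop :=
  ∀ (X : Type) [Fintype X] [DecidableEq X] (T : Cfg X) (D : Finset X) (v : ℝ≥0)
    (F : (D → ℝ) → ℝ≥0∞), Measurable F → (∀ c ∈ D, T.s c = v) →
      ∫⁻ ζ, F (fun c => ζ c) ∂(gm (fun _ => 0) (T.kv D)) =
        ∫⁻ V, F V ∂(Measure.pi fun _ : D => gaussianReal 0 v)

/-! ### C. Steps of the attempt -/

/-- GOK (uses UJT, RUN): the functional and the good points in a kill run. Proof: `UjtStmt` with `W`: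
`‖Go x c‖ + 2 ε x ≤ p x c` by `St.go`, `Hyp.jj`; the budgets are nonnegative by `Hyp.bu` for the set
`kd T ∪ D`; `‖G c c - mg‖ ≤ ‖G₀ c c - mg‖ + J c ≤ δ`, `∑ κ y ‖G c y‖² ≤ im G c c ≤ gb`. `KGd`: `hL` by
`‖G c y‖⁴ ≤ 8 ‖G₀ c y‖⁴ + 8 ‖G c y - G₀ c y‖⁴`, for `y ∈ D` the last is `≤ 8 J c⁴` (`|D| ≤ N`), for
`y ∉ D`: `∑ ‖G - G₀‖⁴ ≤ J² ∑ ‖G - G₀‖²`, `κ y ≥ v g₀`, Minkowski, `mx ≤ εm` and `St.gm`; `ho` by
`Hyp.cut`. -/
def GokStmt : Prop :=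
  ∀ (X : Type) [Fintype X] [DecidableEq X] (A : Pa X) (κs g₀ Λ Lc hK kI : ℝ),
    A.Hyp κs g₀ Λ Lc hK kI → ∀ (T : Cfg X) (Qr D : Finset X) (Go : Matrix X X ℂ) (b : X),
    A.St T Qr Go → b ∈ Qr → D ⊆ A.al T → (A.kd T).card + D.card ≤ A.N →
    (∀ c ∈ A.al T, A.k A.T₀ b * ‖A.G A.T₀ b c‖ ^ 2 ≤ hK) →
    ∀ r : ℝ × (D → ℝ), 0 ≤ r.1 → r.1 ≤ A.v →
      0 ≤ (A.W T D Qr).U (kr A.η A.e0 A.v T D r.1) Go r.1 (Gk A.Hm A.η A.e0 A.v T D r) ∧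
      ContDiffAt ℝ 2 (fun r : ℝ × (D → ℝ) =>
        (A.W T D Qr).U (kr A.η A.e0 A.v T D r.1) Go r.1 (Gk A.Hm A.η A.e0 A.v T D r)) r ∧
      ((A.W T D Qr).U (kr A.η A.e0 A.v T D r.1) Go r.1 (Gk A.Hm A.η A.e0 A.v T D r) < 1 →
        LL (fun r : ℝ × (D → ℝ) =>
          (A.W T D Qr).U (kr A.η A.e0 A.v T D r.1) Go r.1 (Gk A.Hm A.η A.e0 A.v T D r)) r ≤ 0 ∧
        KGd (fun c : D => (c : X)) (Gk A.Hm A.η A.e0 A.v T D r) (kr A.η A.e0 A.v T D r.1)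
          (fun x => (mg A.η A.e0 A.v T x).im)
          (fun c => Gk A.Hm A.η A.e0 A.v T D r c c - mg A.η A.e0 A.v T c) (A.al T) b κs g₀ A.δ Lc ∧
        ∀ x ∈ A.al T, ∀ c : D, ‖Gk A.Hm A.η A.e0 A.v T D r x c‖ ^ 2 ≤ kI)

/-- STK (uses UJT, RUN, MSR, GUF, CUP): one kill. Proof: `St` is a statement about clocks and `Go` only.
`GufStmt` for the run, `W.U (0) ≤ A.U T` (the sum in `mx` is larger), `A.U (T.kl D ζ) ≤ Ue`: the same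
budgets, less terms. -/
def StkStmt : Prop :=
  ∀ (X : Type) [Fintype X] [DecidableEq X] (A : Pa X) (κs g₀ Λ Lc hK kI : ℝ),
    A.Hyp κs g₀ Λ Lc hK kI → ∀ (T : Cfg X) (Qr D : Finset X) (Go : Matrix X X ℂ),
    A.St T Qr Go → D ⊆ A.al T → D ⊆ A.Rk → (A.kd T).card + D.card ≤ A.N →
      (∀ ζ, A.St (T.kl D ζ) Qr Go ∧ 0 ≤ A.U (T.kl D ζ) Qr Go ∧
        A.U (T.kl D ζ) Qr Go ≤ A.Ue T D Qr Go ζ ∧ A.kd (T.kl D ζ) = A.kd T ∪ D ∧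
        A.al (T.kl D ζ) = A.al T \ D) ∧
      (Measurable fun ζ => A.U (T.kl D ζ) Qr Go) ∧ (Measurable fun ζ => A.Ue T D Qr Go ζ) ∧
      ∫⁻ ζ, ENNReal.ofReal (cu (A.Ue T D Qr Go ζ)) ∂(gm (fun _ => 0) (T.kv D)) ≤
        ENNReal.ofReal (cu (A.U T Qr Go))

/-- RVS (uses LV2, LV0 of ANR, NET): one reveal. Proof: `G T' - Go' = G T - Go`, so `U` loses only the
terms with `x = b`. `L y = K_yb / ∑_(z ≠ b) κ_z K_zb = a y / κ_y ≤ 2 t₁ / (v g₀) ≤ dT` on `al T`, `L x ≤ 1 / κ_x`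
always; `LV2`: `‖G T' - G T‖ ≤ 2 (L x L y)^{1/2}`, `∑_y κ_y ‖G T' x y - G T x y‖² ≤ 4 L x`, `∑_x κ_x L_x ≤ 1`; Minkowski. -/
def RvsStmt : Prop :=
  ∀ (X : Type) [Fintype X] [DecidableEq X] (A : Pa X) (κs g₀ Λ Lc hK kI : ℝ),
    A.Hyp κs g₀ Λ Lc hK kI → ∀ (T : Cfg X) (Qr : Finset X) (Go : Matrix X X ℂ) (b : X),
    A.St T Qr Go → b ∈ Qr → (∀ x ∈ A.al T, A.a T b x ≤ 2 * A.t₁) →
      A.St (T.rv {b} A.val) (Qr.erase b) (Go + (A.G (T.rv {b} A.val) - A.G T)) ∧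
      A.U (T.rv {b} A.val) (Qr.erase b) (Go + (A.G (T.rv {b} A.val) - A.G T)) ≤ A.U T Qr Go ∧
      A.al (T.rv {b} A.val) = A.al T ∧ A.kd (T.rv {b} A.val) = A.kd T

/-- PHS (block KIL, helper38): THE PHASE OF `b`: after at most `nP` kills all running sites of `R` are light
for `b`, with failure probability `p`. Continuation form: `a, M` are the constants of the continuation,
the functional `U` is cumulative over the whole attempt. The constants `B, nP, p` and the conditions on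
the numbers are those of block KIL. -/
def PhsAt {X : Type} [Fintype X] [DecidableEq X] (A : Pa X) (hK : ℝ) (nP : ℕ) (p B : ℝ) : Prop :=
  ∀ (T : Cfg X) (Qr : Finset X) (Go : Matrix X X ℂ) (b : X), A.St T Qr Go → b ∈ Qr →
    (∀ c ∈ A.al T, A.k A.T₀ b * ‖A.G A.T₀ b c‖ ^ 2 ≤ hK) → (A.kd T).card + nP ≤ A.N →
    ∀ (Okf : Cfg X → Prop) (a M : ℝ), 0 ≤ a → 0 ≤ M →
    (∀ T' : Cfg X, A.St T' Qr Go → A.al T' ⊆ A.al T → (A.kd T').card ≤ (A.kd T).card + nP →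
      A.U T' Qr Go < 1 → (∀ x ∈ A.al T', A.a T' b x ≤ 2 * A.t₁) →
      Att A.Rk A.Q A.val Okf T' (ENNReal.ofReal (a + M * cu (A.U T' Qr Go)))) →
    Att A.Rk A.Q A.val Okf T (ENNReal.ofReal (a + p + (M + B) * cu (A.U T Qr Go)))

/-- ATA (uses STK, RVS, CUP, PEB): THE ATTEMPT, from the phases. Proof: the first kills are
`D₀ = {x ∈ R | hK < κ_b |G_bx|² for some b ∈ Q}` (`StkStmt` at `T₀`, `Att.kill` with
`q = ofReal (a + M cu U)` if `Ue < 1`, otherwise `1`; `1 ≤ cu Ue` there, so the integral is at most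
`a + (M + 1) cu (U T₀)`), then for the sites `b` of `Q` one after the other (induction on a list): `PhsAt`,
then `Att.ap` (`RvsStmt`: `U` does not increase; `St` for `Qr.erase b`). At the end `Qr = ∅`: `Att.ok`.
`M` starts with `1` and grows by `B` in every phase (`cu` is monotone, `cu u ≤ 3 u`). At `T₀` all
differences vanish, nothing is killed, so `U = ∑_x ∑_y 4 exp (1 - l x ε x) + |R| exp (1 - lm εm) + exp (1 - lM εM)`. -/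
def AtaStmt : Prop :=
  ∀ (X : Type) [Fintype X] [DecidableEq X] (A : Pa X) (κs g₀ Λ Lc hK kI p B : ℝ) (nP : ℕ),
    A.Hyp κs g₀ Λ Lc hK kI → 0 ≤ p → 0 ≤ B → PhsAt A hK nP p B →
    ({x ∈ A.R | ∃ b ∈ A.Q, hK < A.k A.T₀ b * ‖A.G A.T₀ b x‖ ^ 2} : Finset X).card +
      A.Q.card * nP ≤ A.N →
    ∀ Okf : Cfg X → Prop,
      (∀ (T' : Cfg X) (Go : Matrix X X ℂ), A.St T' ∅ Go → A.U T' ∅ Go < 1 →
        (∀ b ∈ A.Q, ∀ x ∈ A.al T', A.k A.T₀ b * ‖A.G A.T₀ b x‖ ^ 2 ≤ hK) → Okf T') →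
      Att A.Rk A.Q A.val Okf A.T₀ (ENNReal.ofReal (A.Q.card * p + 3 * (2 + A.Q.card * B) *
        ((∑ x ∈ A.R ∪ A.Q, A.R.card * (4 * Real.exp (1 - A.l x * A.ε x))) +
          A.R.card * Real.exp (1 - A.lm * A.εm) + Real.exp (1 - A.lM * A.εM))))

/-- OUT (uses UJT, PEB): what the end of the attempt gives. Proof: `U < 1` gives `‖G - Go‖ ≤ 2 ε x` and
`mx (G, Go) ≤ εm`, `MM (G, Go) ≤ εM` (the budgets are nonnegative); `St.go`, `St.gm`, `St.gM`, `Hyp.jj`,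
Minkowski. -/
def OutStmt : Prop :=
  ∀ (X : Type) [Fintype X] [DecidableEq X] (A : Pa X) (κs g₀ Λ Lc hK kI : ℝ),
    A.Hyp κs g₀ Λ Lc hK kI → ∀ (T : Cfg X) (Go : Matrix X X ℂ), A.St T ∅ Go → A.U T ∅ Go < 1 →
      (∀ x ∈ A.al T, ∀ y ∈ A.al T, ‖A.G T x y - A.G A.T₀ x y‖ ≤ A.J x) ∧
      (∀ x ∈ A.al T, Real.sqrt (mx (A.k T) (A.al T) (A.G T) (A.G A.T₀) x) ≤
        Real.sqrt A.εm + A.Q.card * (2 * Real.sqrt A.dT)) ∧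
      Real.sqrt (MM (A.k T) (A.al T) (A.G T) (A.G A.T₀)) ≤ Real.sqrt A.εM + A.Q.card * 2

end Pool.Agent.ATT
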