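import Pool.Agent.KIL.Stmts
import Pool.Agent.ANR.Stmts2
import Pool.Agent.ANP.Defs

/-!
# Attempts (KIL + REL): definitions

All quantities refer to the START OF THE WHOLE ATTEMPT: `Go` is the reference matrix, `Δ = G - Go`.
Exponentials with a budget which is spent in the kill runs: no drift at all.
-/

set_option autoImplicit false

open MeasureTheory ProbabilityTheory Function Filter

open scoped ENNReal BigOperators Topology NNReal Matrix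

noncomputable section

namespace Pool.Agent.ATT

open Pool.Agent.LE.QF (HJ HM gG LL dC)
open Pool.Agent.KIL (KJ KGd gam aa yn ym cu)
open Pool.Agent.ANP (Cfg)

/-- the exponential of an entry: below 1 it gives `|re z|, |im z| ≤ - B / l` -/
def pe (l B : ℝ) (z : ℂ) : ℝ := 2 * Real.exp B * (Real.cosh (l * z.re) + Real.cosh (l * z.im))

/-! ### one kill run -/

section run

variable {X : Type} [Fintype X] [DecidableEq X]

/-- `∑_(y ∈ S) κ_y |G_xy - Go_xy|²` -/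
def mx (κ : X → ℝ) (S : Finset X) (G Go : Matrix X X ℂ) (x : X) : ℝ :=
  ∑ y ∈ S, κ y * ‖G x y - Go x y‖ ^ 2

/-- `∑_(x, y ∈ S) κ_x κ_y |G_xy - Go_xy|²` -/
def MM (κ : X → ℝ) (S : Finset X) (G Go : Matrix X X ℂ) : ℝ := ∑ x ∈ S, κ x * mx κ S G Go x

/-- the parameters of a kill run: `A₁` the sites whose entries are watched, `A₂ ⊆ A₁` the running ones,
`A₃ ⊆ A₂` those which are not killed; `l, ε` the size of the entries, `p x c` bounds `|G_xc|`, `B` the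
budget at the time `0`, `ρ` the rate at which it is spent; `lm, εm, Bm, ρm` the same for `mx` and
`lM, εM, BM, ρM` for `MM` -/
structure Rn (X : Type) where
  A₁ : Finset X
  A₂ : Finset X
  A₃ : Finset X
  l : X → ℝ
  ε : X → ℝ
  p : X → X → ℝ
  B : X → X → ℝ
  ρ : X → X → ℝ
  lm : ℝ
  εm : ℝ
  Bm : X → ℝ
  ρm : X → ℝ
  lM : ℝ
  εM : ℝ
  BM : ℝ
  ρM : ℝ

/-- the functional at the time `t` -/
def Rn.U (W : Rn X) (κ : X → ℝ) (Go : Matrix X X ℂ) (t : ℝ) (G : Matrix X X ℂ) : ℝ :=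
  (∑ x ∈ W.A₁, ∑ y ∈ W.A₂, pe (W.l x) (W.B x y - W.ρ x y * t - W.l x * W.ε x) (G x y - Go x y)) +
    ∑ x ∈ W.A₂, Real.exp (W.Bm x - W.ρm x * t + W.lm * (mx κ W.A₃ G Go x - W.εm)) +
    Real.exp (W.BM - W.ρM * t + W.lM * (MM κ W.A₃ G Go - W.εM))

/-- the cost of the kill of `c` for a pair, `p, p'` bound `|G_xc|`, `|G_yc|` -/
def cs (l δ p p' : ℝ) : ℝ := l * δ * (p * p') + l ^ 2 / 2 * (p * p') ^ 2

/-- the cost of the kill of `c` for `mx x`; `gb` bounds `im G_cc` -/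
def cm (lm εm δ gb p : ℝ) : ℝ :=
  lm * (2 * δ * p * Real.sqrt (εm * gb) + p ^ 2 * gb) + 2 * lm ^ 2 * (p ^ 2 * (εm * gb))

/-- the cost of a kill for `MM`; `gb` bounds `im G_cc` -/
def cM (lM εM δ gb : ℝ) : ℝ :=
  lM * (2 * δ * gb * Real.sqrt εM + gb ^ 2) + 2 * lM ^ 2 * (gb ^ 2 * εM)

end run

/-! ### the networks of the configurations -/

section net

variable {X : Type} [Fintype X] [DecidableEq X]

/-- the real part of the network; `Hm` = hopping minus the energy -/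
def hN (Hm : Matrix X X ℝ) (T : Cfg X) : Matrix X X ℝ :=
  fun x y => Hm x y + if x = y then T.V x - (T.s x : ℝ) * (T.mb x).re else 0

/-- the absorption: `e0` at the dead sites -/
def ka (η e0 : ℝ) (T : Cfg X) (x : X) : ℝ := if T.s x = 0 then e0 else η + (T.s x : ℝ) * (T.mb x).im

/-- the Green function of a configuration -/
def GT (Hm : Matrix X X ℝ) (η e0 : ℝ) (T : Cfg X) : Matrix X X ℂ := ANR.Gr (hN Hm T) (ka η e0 T)

/-- the gauge of a kill run: the absorption goes from `η + v im mb` to `e0` -/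
def mg (η e0 : ℝ) (v : ℝ≥0) (T : Cfg X) (x : X) : ℂ := T.mb x + Complex.I * (((η - e0) / v : ℝ) : ℂ)

/-- the absorption during a kill run of `D` -/
def kr (η e0 : ℝ) (v : ℝ≥0) (T : Cfg X) (D : Finset X) (t : ℝ) (x : X) : ℝ :=
  if x ∈ D then ka η e0 T x - t * (mg η e0 v T x).im else ka η e0 T x

/-- the Green function during a kill run of `D` -/
def Gk (Hm : Matrix X X ℝ) (η e0 : ℝ) (v : ℝ≥0) (T : Cfg X) (D : Finset X) (r : ℝ × (D → ℝ)) :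
    Matrix X X ℂ :=
  ANR.Gr (fun x y => hN Hm T x y +
    if h : x ∈ D then (if x = y then r.2 ⟨x, h⟩ + r.1 * (T.mb x).re else 0) else 0)
    (kr η e0 v T D r.1)

end net

/-! ### the state of an attempt -/

/-- the constants of an attempt: the configuration at the start, the running sites `R` near the cluster
`Q` (monitored), those very near (`Rk`, only they are killed), their clock, the potential on `Q`,
numbers -/
structure Pa (X : Type) where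
  Hm : Matrix X X ℝ
  η : ℝ
  e0 : ℝ
  T₀ : Cfg X
  R : Finset X
  Rk : Finset X
  Q : Finset X
  v : ℝ≥0
  val : X → ℝ
  /-- bounds the fluctuations of the diagonal -/
  δ : ℝ
  /-- bounds `im G_cc` -/
  gb : ℝ
  /-- the threshold for heavy sites -/
  t₁ : ℝ
  /-- the intensity at light sites, per flux -/
  dT : ℝ
  l : X → ℝ
  ε : X → ℝ
  /-- bounds the change of the entries -/
  J : X → ℝ
  lm : ℝ
  εm : ℝ
  lM : ℝ
  εM : ℝ
  /-- the maximal number of kills -/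
  N : ℕ

namespace Pa

variable {X : Type} [Fintype X] [DecidableEq X] (A : Pa X)

/-- the Green function -/
def G (T : Cfg X) : Matrix X X ℂ := GT A.Hm A.η A.e0 T

/-- the absorption -/
def k (T : Cfg X) : X → ℝ := ka A.η A.e0 T

/-- the running sites near `Q` -/
def al (T : Cfg X) : Finset X := {x ∈ A.R | T.s x ≠ 0}

/-- the killed sites -/
def kd (T : Cfg X) : Finset X := {x ∈ A.R | T.s x = 0}

/-- the bound of `|G_xc|` -/
def p (x c : X) : ℝ := ‖A.G A.T₀ x c‖ + A.J x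

/-- the budget of a pair which is left -/
def bud (T : Cfg X) (x y : X) : ℝ :=
  1 - A.v * ∑ c ∈ A.kd T, cs (A.l x) A.δ (A.p x c) (A.p y c)

/-- the budget for `mx` which is left -/
def bum (T : Cfg X) (x : X) : ℝ := 1 - A.v * ∑ c ∈ A.kd T, cm A.lm A.εm A.δ A.gb (A.p x c)

/-- the budget for `MM` which is left -/
def buM (T : Cfg X) : ℝ := 1 - A.v * ((A.kd T).card * cM A.lM A.εM A.δ A.gb)

/-- the functional; `Qr` = the sites of `Q` which are not revealed yet -/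
def U (T : Cfg X) (Qr : Finset X) (Go : Matrix X X ℂ) : ℝ :=
  (∑ x ∈ A.al T ∪ Qr, ∑ y ∈ A.al T,
    pe (A.l x) (A.bud T x y - A.l x * A.ε x) (A.G T x y - Go x y)) +
    ∑ x ∈ A.al T, Real.exp (A.bum T x + A.lm * (mx (A.k T) (A.al T) (A.G T) Go x - A.εm)) +
    Real.exp (A.buM T + A.lM * (MM (A.k T) (A.al T) (A.G T) Go - A.εM))

/-- the part of the current out of `b` which is absorbed at `x` -/
def a (T : Cfg X) (b x : X) : ℝ := aa (A.k T) (A.G T) b x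

/-- the mass of the heavy sites -/
def y (θ : ℝ → ℝ) (T : Cfg X) (b : X) : ℝ := ∑ x ∈ A.al T, θ (A.a T b x)

/-- the state of the attempt after the reveal of `Q \ Qr` -/
structure St (T : Cfg X) (Qr : Finset X) (Go : Matrix X X ℂ) : Prop where
  mb : T.mb = A.T₀.mb
  off : ∀ x, x ∉ A.R → x ∉ A.Q → T.V x = A.T₀.V x ∧ T.s x = A.T₀.s x
  run : ∀ x ∈ A.R, T.s x = 0 ∨ T.V x = A.T₀.V x ∧ T.s x = A.v
  sub : Qr ⊆ A.Q
  rem : ∀ b ∈ Qr, T.V b = A.T₀.V b ∧ T.s b = A.T₀.s b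
  app : ∀ b ∈ A.Q, b ∉ Qr → T.V b = A.val b ∧ T.s b = 0
  num : (A.kd T).card ≤ A.N
  near : A.kd T ⊆ A.Rk
  go : ∀ x ∈ A.al T ∪ Qr, ∀ y ∈ A.al T,
    ‖Go x y - A.G A.T₀ x y‖ ≤ (A.Q \ Qr).card * (2 * Real.sqrt (A.dT * if x ∈ Qr then (A.k A.T₀ x)⁻¹ else A.dT))
  gm : ∀ x ∈ A.al T, Real.sqrt (mx (A.k T) (A.al T) Go (A.G A.T₀) x) ≤
    (A.Q \ Qr).card * (2 * Real.sqrt A.dT)
  gM : Real.sqrt (MM (A.k T) (A.al T) Go (A.G A.T₀)) ≤ (A.Q \ Qr).card * 2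

/-- the parameters of the kill run of `D` -/
def W (T : Cfg X) (D Qr : Finset X) : Rn X where
  A₁ := A.al T ∪ Qr
  A₂ := A.al T
  A₃ := A.al T \ D
  l := A.l
  ε := A.ε
  p := A.p
  B := A.bud T
  ρ := fun x y => ∑ c ∈ D, cs (A.l x) A.δ (A.p x c) (A.p y c)
  lm := A.lm
  εm := A.εm
  Bm := A.bum T
  ρm := fun x => ∑ c ∈ D, cm A.lm A.εm A.δ A.gb (A.p x c)
  lM := A.lM
  εM := A.εM
  BM := A.buM T
  ρM := D.card * cM A.lM A.εM A.δ A.gb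

/-- the functional at the end of the kill run of `D` -/
def Ue (T : Cfg X) (D Qr : Finset X) (Go : Matrix X X ℂ) (ζ : X → ℝ) : ℝ :=
  (A.W T D Qr).U (A.k (T.kl D ζ)) Go A.v (A.G (T.kl D ζ))

/-- the hypotheses of an attempt, in numbers. `κs` bounds the absorption of the running sites, `Λ` the
fourth powers at the start, `Lc` during the attempt, `hK` bounds `κ_b |G_bx|²` outside of the first
kills, `kI` the entries -/
structure Hyp (κs g₀ Λ Lc hK kI : ℝ) : Prop where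
  sym : ∀ x y, A.Hm x y = A.Hm y x
  pos : 0 < A.e0 ∧ A.e0 ≤ A.η ∧ 0 < A.v ∧ 0 < g₀ ∧ 0 < A.t₁ ∧ 0 ≤ A.dT ∧ 0 ≤ A.δ ∧
    0 ≤ A.gb ∧ 0 < A.lm ∧ 0 < A.εm ∧ 0 ≤ hK ∧ 0 < A.lM ∧ 0 < A.εM
  pimb : ∀ x, 0 < A.T₀.s x → 0 < (A.T₀.mb x).im
  dis : Disjoint A.R A.Q
  hRk : A.Rk ⊆ A.R
  /-- the sites of `R` off `Rk` are light (exponential decay) -/
  far : ∀ (T : Cfg X) (Qr : Finset X) (Go : Matrix X X ℂ), A.St T Qr Go → ∀ b ∈ Qr,
    ∀ x ∈ A.al T, x ∉ A.Rk → A.a T b x < A.t₁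
  far₀ : ∀ b ∈ A.Q, ∀ x ∈ A.R, x ∉ A.Rk → A.k A.T₀ b * ‖A.G A.T₀ b x‖ ^ 2 ≤ hK
  hR : ∀ x ∈ A.R, A.T₀.s x = A.v ∧ g₀ ≤ (A.T₀.mb x).im ∧ A.k A.T₀ x ≤ κs
  hQ : ∀ b ∈ A.Q, A.T₀.s b ≠ 0
  le : ∀ x ∈ A.R ∪ A.Q, 0 < A.l x ∧ 0 ≤ A.ε x ∧ 0 ≤ A.J x
  /-- the fluctuations -/
  dia : ∀ c ∈ A.R, ‖A.G A.T₀ c c - mg A.η A.e0 A.v A.T₀ c‖ + A.J c ≤ A.δ ∧
    ‖A.G A.T₀ c c‖ + A.J c ≤ A.gb
  /-- the change of the entries -/
  jj : ∀ x ∈ A.R ∪ A.Q, (A.Q.card : ℝ) * (2 * Real.sqrt (A.dT *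
    if x ∈ A.Q then (A.k A.T₀ x)⁻¹ else A.dT)) + 2 * A.ε x ≤ A.J x
  dt : 2 * A.t₁ ≤ A.dT * (A.v * g₀)
  /-- the budgets suffice for `N` kills -/
  bu : ∀ S : Finset X, S ⊆ A.R → S.card ≤ A.N →
    (∀ x ∈ A.R ∪ A.Q, ∀ y ∈ A.R, A.v * ∑ c ∈ S, cs (A.l x) A.δ (A.p x c) (A.p y c) ≤ 1) ∧
    ∀ x ∈ A.R, A.v * ∑ c ∈ S, cm A.lm A.εm A.δ A.gb (A.p x c) ≤ 1
  buM : A.v * (A.N * cM A.lM A.εM A.δ A.gb) ≤ 1
  lam : ∀ x ∈ A.R, ∑ y ∈ A.R, ‖A.G A.T₀ x y‖ ^ 4 ≤ Λ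
  lc : ∀ x ∈ A.R, 16 * Λ + 8 * (A.N * A.J x ^ 4) + 8 * (A.J x ^ 2 *
    (Real.sqrt A.εm + A.Q.card * (2 * Real.sqrt A.dT)) ^ 2 / (A.v * g₀)) ≤ Lc
  ent : ∀ x ∈ A.R, ∀ y ∈ A.R, (‖A.G A.T₀ x y‖ + A.J x) ^ 2 ≤ kI
  cut : ∀ b ∈ A.Q, (Real.sqrt hK + Real.sqrt (A.k A.T₀ b) * A.J b) ^ 2 ≤ A.δ

end Pa

end Pool.Agent.ATT
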