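import Pool.Agent.ATT.Stmts

/-!
# The phase of one site (block KIL): the statement
-/

set_option autoImplicit false

open MeasureTheory ProbabilityTheory Function Filter

open scoped ENNReal BigOperators Topology NNReal Matrix

noncomputable section

namespace Pool.Agent.ATT

/-- PHN: the phase of one site. Proof: value function `a + tn + M cu U + e^{2 lam} ((1 - cu U)
exp (lam (3 y - y² - 2) - lam S / 20) + B cu U)`, `S` = the remaining budget for the killed mass, `y` the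
mass of the heavy sites. If all sites are light: done. Otherwise let `D` be the sites of `al T` with
`a ≥ t₁` and `r` their mass. If `S ≤ 40 r` the value is at least `1`. If `r ≥ ρ`: KR1 with `S - r` for
`S`. If `r < ρ`: KLR, the last round. -/
def PhnStmt : Prop :=
  ∃ ε₀ c₀ lam C B : ℝ, 0 < ε₀ ∧ 0 < c₀ ∧ c₀ ≤ 1 ∧ 0 < lam ∧ lam ≤ 1 ∧ 1 ≤ C ∧ 1 ≤ B ∧
    ∀ (X : Type) [Fintype X] [DecidableEq X] (A : Pa X)
      (κs g₀ Λ Lc hK kI ρ S₀ ε bL : ℝ) (j nP : ℕ),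
      A.Hyp κs g₀ Λ Lc hK kI → A.t₁ ≤ 1 → 2 * A.δ / g₀ ≤ ε₀ →
      κs * Real.sqrt (2 / (c₀ * A.t₁) * Lc) / g₀ ≤ ε₀ ^ 2 →
      C * A.δ ^ 2 * Real.sqrt (1 / (c₀ * A.t₁) * Real.sqrt (1 / (c₀ * A.t₁) * Lc)) / g₀ * A.v ≤
        lam * ρ / 20 →
      0 < ρ → 1 ≤ j → 0 ≤ ε → ε ≤ 1 / 16 → 2 * A.δ / g₀ ≤ ε →
      κs * Real.sqrt (1 / A.t₁ * Lc) / g₀ ≤ ε ^ 2 →
      j * (4 * ε ^ 2 + 16 * ρ) ≤ 1 / 8 → 300 * j * (2 * (κs * kI / g₀) / A.t₁ + 1) * ρ ≤ 1 →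
      20 * j * A.δ ^ 2 * Real.sqrt (1 / A.t₁ * Real.sqrt (1 / A.t₁ * Lc)) / (ρ * g₀) +
        128 * j * ρ * A.δ ^ 2 * (1 / A.t₁) * (κs * kI / g₀) / A.t₁ ≤ bL →
      0 ≤ S₀ → (S₀ + 1) / A.t₁ ≤ nP →
        PhsAt A hK nP (3 * Real.exp (A.v * bL) * ((1 + A.R.card) * Real.exp (-(j : ℝ) / 5)) +
          Real.exp (2 * lam) * Real.exp (-(lam * S₀ / 20))) (Real.exp (2 * lam) * B)

end Pool.Agent.ATT
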